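import Mathlib
import Pool.Agent.H1.SharpD

set_option autoImplicit false

theorem Pool.Agent.Results.MP_bac04d_nt.AllDegrees.result :
    ∀ d : ℝ, 2 ≤ d →
      ∃ (F Φ : ℂ → ℂ) (a : ℕ → ℂ) (Q lam : ℝ) (mu : ℂ),
        F ≠ 0 ∧ Differentiable ℂ F ∧
        (∀ s : ℂ, 1 < s.re → LSeriesSummable a s ∧ F s = LSeries a s) ∧
        (∀ σ₁ σ₂ : ℝ, ∃ C M : ℝ, ∀ s : ℂ, σ₁ ≤ s.re → s.re ≤ σ₂ →
          ‖F s‖ ≤ C * (1 + |s.im|) ^ M) ∧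
        (∃ ρ C : ℝ, ∀ s : ℂ, ‖F s‖ ≤ C * Real.exp (‖s‖ ^ ρ)) ∧
        0 < Q ∧ 0 < lam ∧ 0 ≤ mu.re ∧ 2 * lam = d ∧
        Differentiable ℂ Φ ∧
        (∀ s : ℂ, (∀ m : ℕ, (lam : ℂ) * s + mu ≠ -(m : ℂ)) →
          Φ s = (Q : ℂ) ^ s * Complex.Gamma ((lam : ℂ) * s + mu) * F s) ∧
        ∀ s : ℂ, Φ s = starRingEnd ℂ (Φ (1 - starRingEnd ℂ s)) := by
  intro d hd
  obtain ⟨F, Φ, a, mu, h0, -, h2, h3, h4, h5, -, h7, ⟨C, h8⟩, h9, h10⟩ :=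
    Pool.Agent.H1.Sharp.exists_F (lam := d / 2) (by linarith)
  exact ⟨F, Φ, a, (6 : ℝ) ^ (d / 2), d / 2, mu, h4, h2, h5, h7, ⟨4, C, h8⟩, by positivity,
    by linarith, by simpa using h0, by ring, h3, h9, h10⟩
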